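import Pool.Agent.Lib.MP_abd978_an.PL.Defs

/-!
# Project PLANAR: module STOKES
-/

set_option autoImplicit false

open MeasureTheory Metric Set Filter Topology ContDiff
open scoped Gradient RealInnerProductSpace

namespace Pool.Agent.Lib.MP_abd978_an.PL.H2

/-- products `k h` with `k` continuous, compactly supported in `D`, `h` continuous in `D` -/
theorem integrable_mul {D : Set (E 2)} {k h : E 2 → ℝ} (hD : IsOpen D) (hk : Continuous k)
    (hks : HasCompactSupport k) (hkD : tsupport k ⊆ D) (hh : ContinuousOn h D) :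
    Integrable (fun x => k x * h x) := by
  have hc : Continuous (fun x => k x * h x) := by
    rw [continuous_iff_continuousAt]
    intro x
    by_cases hx : x ∈ D
    · exact hk.continuousAt.mul (hh.continuousAt (hD.mem_nhds hx))
    · have hx' : x ∉ tsupport k := fun h' => hx (hkD h')
      have h0 : k =ᶠ[𝓝 x] 0 := notMem_tsupport_iff_eventuallyEq.1 hx'
      have h1 : (fun x => k x * h x) =ᶠ[𝓝 x] fun _ => (0 : ℝ) := by
        filter_upwards [h0] with y hy
        simp [hy]
      exact (continuousAt_const (y := (0 : ℝ))).congr h1.symm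
  exact hc.integrable_of_hasCompactSupport hks.mul_right

theorem grad_apply (f : E 2 → ℝ) (x : E 2) (i : Fin 2) :
    (∇ f x) i = fderiv ℝ f x (EuclideanSpace.single i 1) := by
  rw [← inner_gradient_left, EuclideanSpace.inner_single_right]
  simp

theorem stokes : StokesStatement := by
  intro D Φ W hD hΦ hΦc hΦD hW
  set e0 : E 2 := EuclideanSpace.single 0 1 with he0
  set e1 : E 2 := EuclideanSpace.single 1 1 with he1
  have hWat : ∀ x ∈ D, ContDiffAt ℝ ∞ W x := fun x hx => hW.contDiffAt (hD.mem_nhds hx)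
  have hdW : ∀ x ∈ D, ContDiffAt ℝ 1 (fderiv ℝ W) x := fun x hx =>
    (hWat x hx).fderiv_right (by norm_cast)
  -- partial derivatives
  have hp : ∀ v : E 2, ∀ x ∈ D, ContDiffAt ℝ 1 (fun y => fderiv ℝ W y v) x := fun v x hx =>
    (hdW x hx).clm_apply contDiffAt_const
  have hpd : ∀ v : E 2, ∀ x ∈ D, DifferentiableAt ℝ (fun y => fderiv ℝ W y v) x := fun v x hx =>
    (hp v x hx).differentiableAt (by norm_num)
  have hpc : ∀ v : E 2, ContinuousOn (fun y => fderiv ℝ W y v) D := fun v x hx =>
    (hp v x hx).continuousAt.continuousWithinAt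
  have hpp : ∀ v u : E 2, ContinuousOn (fun y => fderiv ℝ (fun z => fderiv ℝ W z v) y u) D := by
    intro v u x hx
    have h2 : ContDiffAt ℝ 0 (fderiv ℝ (fun z => fderiv ℝ W z v)) x :=
      (hp v x hx).fderiv_right (by norm_num)
    exact ((h2.clm_apply contDiffAt_const).continuousAt).continuousWithinAt
  have hfc : ∀ v : E 2, Continuous (fun y => fderiv ℝ Φ y v) := fun v =>
    (hΦ.continuous_fderiv (by norm_num)).clm_apply continuous_const
  have hfs : ∀ v : E 2, tsupport (fun y => fderiv ℝ Φ y v) ⊆ tsupport Φ := fun v =>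
    (tsupport_fderiv_apply_subset ℝ v)
  have hfcs : ∀ v : E 2, HasCompactSupport (fun y => fderiv ℝ Φ y v) := fun v =>
    hΦc.fderiv_apply ℝ v
  have key : ∀ u v : E 2, ∫ x, Φ x * fderiv ℝ (fun z => fderiv ℝ W z v) x u =
      -∫ x, fderiv ℝ Φ x u * fderiv ℝ W x v := by
    intro u v
    refine integral_mul_fderiv_eq_neg_fderiv_mul_of_integrable
      (f := Φ) (g := fun z => fderiv ℝ W z v) (v := u) ?_ ?_ ?_ ?_ ?_
    · exact integrable_mul hD (hfc u) (hfcs u) ((hfs u).trans hΦD) (hpc v)
    · exact integrable_mul hD hΦ.continuous hΦc hΦD (hpp v u)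
    · exact integrable_mul hD hΦ.continuous hΦc hΦD (hpc v)
    · intro x _
      exact hΦ.differentiable (by norm_num) x
    · intro x hx
      exact hpd v x (hΦD hx)
  have hsymm : ∀ x, Φ x * fderiv ℝ (fun z => fderiv ℝ W z e0) x e1 =
      Φ x * fderiv ℝ (fun z => fderiv ℝ W z e1) x e0 := by
    intro x
    by_cases hx : x ∈ D
    · have h1 : ∀ v u : E 2, fderiv ℝ (fun z => fderiv ℝ W z v) x u
          = fderiv ℝ (fderiv ℝ W) x u v := by
        intro v u
        have hd := (hdW x hx).differentiableAt (by norm_num)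
        rw [fderiv_clm_apply hd (differentiableAt_const v)]
        simp
      have hs : IsSymmSndFDerivAt ℝ W x :=
        (hWat x hx).isSymmSndFDerivAt (by
          rw [minSmoothness_of_isRCLikeNormedField]
          exact WithTop.coe_le_coe.2 (le_top : (2 : ℕ∞) ≤ ⊤))
      rw [h1, h1, hs e1 e0]
    · have : Φ x = 0 := by
        by_contra hne
        exact hx (hΦD (subset_tsupport _ hne))
      simp [this]
  have hpt : ∀ x, ⟪∇ Φ x, rot (∇ W x)⟫ =
      fderiv ℝ Φ x e1 * fderiv ℝ W x e0 - fderiv ℝ Φ x e0 * fderiv ℝ W x e1 := by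
    intro x
    rw [inner_eq, rot_zero_apply, rot_one_apply, grad_apply, grad_apply, grad_apply, grad_apply]
    ring
  have hi1 : Integrable (fun x => fderiv ℝ Φ x e1 * fderiv ℝ W x e0) :=
    integrable_mul hD (hfc e1) (hfcs e1) ((hfs e1).trans hΦD) (hpc e0)
  have hi2 : Integrable (fun x => fderiv ℝ Φ x e0 * fderiv ℝ W x e1) :=
    integrable_mul hD (hfc e0) (hfcs e0) ((hfs e0).trans hΦD) (hpc e1)
  simp_rw [hpt]
  rw [integral_sub hi1 hi2]
  have k1 := key e1 e0
  have k2 := key e0 e1
  have k3 : ∫ x, Φ x * fderiv ℝ (fun z => fderiv ℝ W z e0) x e1 =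
      ∫ x, Φ x * fderiv ℝ (fun z => fderiv ℝ W z e1) x e0 := by
    exact integral_congr_ae (Eventually.of_forall hsymm)
  linarith

end Pool.Agent.Lib.MP_abd978_an.PL.H2
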